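import Mathlib

set_option autoImplicit false

namespace Pool.Agent.Lib.HQ

/-- The three conjugate coefficients. -/
def w0 {L : Type} [Field L] (t : L) : L := 4 + 3 * t + t ^ 2
def w1 {L : Type} [Field L] (t : L) : L := 1 - t + 2 * t ^ 2
def w2 {L : Type} [Field L] (t : L) : L := 9 - 2 * t - 3 * t ^ 2

variable {L : Type} [Field L]

theorem quartic (t : L) (ht : t ^ 3 + t ^ 2 - 2 * t - 1 = 0) (x0 x1 x2 W0 W1 W2 : L)
    (h0 : W0 = w0 t * x0 + w1 t * x1 + w2 t * x2)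
    (h1 : W1 = w1 t * x0 + w2 t * x1 + w0 t * x2)
    (h2 : W2 = w2 t * x0 + w0 t * x1 + w1 t * x2) :
    3 * (W0 * W1 * W2 * (W0 + W1 + W2)) - 2 * (W0 ^ 2 * W1 ^ 2 + W1 ^ 2 * W2 ^ 2 + W2 ^ 2 * W0 ^ 2)
      = 4802 * (x0 ^ 3 * x1 + x1 ^ 3 * x2 + x2 ^ 3 * x0 + 7 * (x0 * x1 * x2) * (x0 + x1 + x2)) := by
  subst h0 h1 h2
  simp only [w0, w1, w2]
  linear_combination (((-98)*t^5 + (-98)*t^4 + (-392)*t^3 + (-1176)*t^2 + (490)*t + (1274))*x0^4 +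
      ((196)*t^5 + (196)*t^4 + (-1078)*t^3 + (3920)*t^2 + (4116)*t + (-4116))*x0^3*x1 +
      ((196)*t^5 + (196)*t^4 + (882)*t^3 + (-3038)*t^2 + (-7350)*t + (2842))*x0^3*x2 +
      ((-294)*t^5 + (-294)*t^4 + (2352)*t^3 + (4116)*t^2 + (-8330)*t + (-3822))*x0^2*x1^2 +
      ((-1764)*t^3 + (-3822)*t^2 + (11074)*t + (3822))*x0^2*x1*x2 +
      ((-294)*t^5 + (-294)*t^4 + (2352)*t^3 + (4116)*t^2 + (-8330)*t + (-3822))*x0^2*x2^2 +
      ((196)*t^5 + (196)*t^4 + (882)*t^3 + (-3038)*t^2 + (-7350)*t + (2842))*x0*x1^3 +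
      ((-1764)*t^3 + (-3822)*t^2 + (11074)*t + (3822))*x0*x1^2*x2 +
      ((-1764)*t^3 + (-3822)*t^2 + (11074)*t + (3822))*x0*x1*x2^2 +
      ((196)*t^5 + (196)*t^4 + (-1078)*t^3 + (3920)*t^2 + (4116)*t + (-4116))*x0*x2^3 +
      ((-98)*t^5 + (-98)*t^4 + (-392)*t^3 + (-1176)*t^2 + (490)*t + (1274))*x1^4 +
      ((196)*t^5 + (196)*t^4 + (-1078)*t^3 + (3920)*t^2 + (4116)*t + (-4116))*x1^3*x2 +
      ((-294)*t^5 + (-294)*t^4 + (2352)*t^3 + (4116)*t^2 + (-8330)*t + (-3822))*x1^2*x2^2 +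
      ((196)*t^5 + (196)*t^4 + (882)*t^3 + (-3038)*t^2 + (-7350)*t + (2842))*x1*x2^3 +
      ((-98)*t^5 + (-98)*t^4 + (-392)*t^3 + (-1176)*t^2 + (490)*t + (1274))*x2^4) * ht

theorem inverse (t : L) (ht : t ^ 3 + t ^ 2 - 2 * t - 1 = 0) (x0 x1 x2 W0 W1 W2 : L)
    (h0 : W0 = w0 t * x0 + w1 t * x1 + w2 t * x2)
    (h1 : W1 = w1 t * x0 + w2 t * x1 + w0 t * x2)
    (h2 : W2 = w2 t * x0 + w0 t * x1 + w1 t * x2) :
    98 * x0 = (1 + 6 * t + 2 * t ^ 2) * W0 + (-5 - 2 * t + 4 * t ^ 2) * W1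
      + (11 - 4 * t - 6 * t ^ 2) * W2 := by
  subst h0 h1 h2
  simp only [w0, w1, w2]
  linear_combination ((-28 * x0 + 14 * x1 + 14 * x2) * t) * ht


/-- The three linear forms. -/
def F0 (s : L →+* L) (t x : L) : L := w0 t * x + w1 t * s x + w2 t * s (s x)
def F1 (s : L →+* L) (t x : L) : L := w1 t * x + w2 t * s x + w0 t * s (s x)
def F2 (s : L →+* L) (t x : L) : L := w2 t * x + w0 t * s x + w1 t * s (s x)

/-- The quartic form. -/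
def Qr (s : L →+* L) (x : L) : L :=
  x ^ 3 * s x + (s x) ^ 3 * s (s x) + (s (s x)) ^ 3 * x
    + 7 * (x * s x * s (s x)) * (x + s x + s (s x))

/-- The birational map. -/
noncomputable def Phi (s r : L →+* L) (t x : L) : L :=
  (2 * (F0 s t x)⁻¹ - r ((F0 s t x)⁻¹))⁻¹

theorem F0_sub (s : L →+* L) (t x y : L) : F0 s t (x - y) = F0 s t x - F0 s t y := by
  simp only [F0, map_sub]; ring

/-- The data needed: a root of the cubic and two ring maps. -/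
structure Data (L : Type) [Field L] where
  s : L →+* L
  r : L →+* L
  t : L
  ht : t ^ 3 + t ^ 2 - 2 * t - 1 = 0
  r3 : ∀ x, r (r (r x)) = x
  h1 : ∀ x, r (F0 s t x) = F1 s t x
  h2 : ∀ x, r (F1 s t x) = F2 s t x
  n2 : (2 : L) ≠ 0
  n7 : (7 : L) ≠ 0

variable (D : Data L)

theorem F0_ne {x : L} (hx : x ≠ 0) : F0 D.s D.t x ≠ 0 := by
  intro h0
  have h1 : F1 D.s D.t x = 0 := by rw [← D.h1, h0, map_zero]
  have h2 : F2 D.s D.t x = 0 := by rw [← D.h2, h1, map_zero]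
  have h := inverse D.t D.ht x (D.s x) (D.s (D.s x)) _ _ _ rfl rfl rfl
  have e0 : w0 D.t * x + w1 D.t * D.s x + w2 D.t * D.s (D.s x) = 0 := h0
  have e1 : w1 D.t * x + w2 D.t * D.s x + w0 D.t * D.s (D.s x) = 0 := h1
  have e2 : w2 D.t * x + w0 D.t * D.s x + w1 D.t * D.s (D.s x) = 0 := h2
  rw [e0, e1, e2] at h
  have h98 : (98 : L) * x = 0 := by rw [h]; ring
  have : (98 : L) = 2 * 7 * 7 := by norm_num
  rw [this] at h98
  rcases mul_eq_zero.1 h98 with h' | h'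
  · exact (mul_ne_zero (mul_ne_zero D.n2 D.n7) D.n7) h'
  · exact hx h'

theorem F0_inj : Function.Injective (F0 D.s D.t) := by
  intro x y h
  by_contra hne
  exact F0_ne D (sub_ne_zero.2 hne) (by rw [F0_sub, h, sub_self])

theorem lin_zero {d : L} (h : 2 * d - D.r d = 0) : d = 0 := by
  have h1 : D.r d = 2 * d := (sub_eq_zero.1 h).symm
  have h3 := D.r3 d
  have h2 : D.r 2 = 2 := map_ofNat D.r 2
  rw [h1, map_mul, h1, map_mul, map_mul, h1, h2] at h3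
  have : (7 : L) * d = 0 := by linear_combination h3 - 4 * d * h2
  rcases mul_eq_zero.1 this with h' | h'
  · exact absurd h' D.n7
  · exact h'

theorem Phi_inj : Function.Injective (Phi D.s D.r D.t) := by
  intro x y h
  have h1 := inv_injective h
  have h2 : (F0 D.s D.t x)⁻¹ - (F0 D.s D.t y)⁻¹ = 0 := by
    apply lin_zero D
    rw [map_sub]
    linear_combination h1
  exact F0_inj D (inv_injective (sub_eq_zero.1 h2))

theorem Phi_zero : Phi D.s D.r D.t 0 = 0 := by simp [Phi, F0]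

theorem trace_iff (x : L) :
    Phi D.s D.r D.t x + D.r (Phi D.s D.r D.t x) + D.r (D.r (Phi D.s D.r D.t x)) = 0 ↔
      Qr D.s x = 0 := by
  by_cases hx : x = 0
  · subst hx
    rw [Phi_zero]
    simp [Qr]
  set W0 := F0 D.s D.t x with hW0
  set W1 := F1 D.s D.t x with hW1
  set W2 := F2 D.s D.t x with hW2
  have r0 : D.r W0 = W1 := D.h1 x
  have r1 : D.r W1 = W2 := D.h2 x
  have r2 : D.r W2 = W0 := by rw [← r1, ← r0]; exact D.r3 _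
  have n0 : W0 ≠ 0 := F0_ne D hx
  have n1 : W1 ≠ 0 := by rw [← r0]; exact (map_ne_zero D.r).2 n0
  have n2 : W2 ≠ 0 := by rw [← r1]; exact (map_ne_zero D.r).2 n1
  have hz0 : 2 * W0⁻¹ - W1⁻¹ ≠ 0 := by
    intro h
    apply inv_ne_zero n0
    apply lin_zero D
    rw [map_inv₀, r0]; exact h
  have hz1 : 2 * W1⁻¹ - W2⁻¹ ≠ 0 := by
    have : D.r (2 * W0⁻¹ - W1⁻¹) = 2 * W1⁻¹ - W2⁻¹ := by
      rw [map_sub, map_mul, map_inv₀, map_inv₀, r0, r1, map_ofNat]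
    rw [← this]; exact (map_ne_zero D.r).2 hz0
  have hz2 : 2 * W2⁻¹ - W0⁻¹ ≠ 0 := by
    have : D.r (2 * W1⁻¹ - W2⁻¹) = 2 * W2⁻¹ - W0⁻¹ := by
      rw [map_sub, map_mul, map_inv₀, map_inv₀, r1, r2, map_ofNat]
    rw [← this]; exact (map_ne_zero D.r).2 hz1
  have p0 : Phi D.s D.r D.t x = (2 * W0⁻¹ - W1⁻¹)⁻¹ := by
    rw [Phi, ← hW0, map_inv₀, r0]
  have p1 : D.r (Phi D.s D.r D.t x) = (2 * W1⁻¹ - W2⁻¹)⁻¹ := by
    rw [p0, map_inv₀, map_sub, map_mul, map_inv₀, map_inv₀, r0, r1, map_ofNat]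
  have p2 : D.r (D.r (Phi D.s D.r D.t x)) = (2 * W2⁻¹ - W0⁻¹)⁻¹ := by
    rw [p1, map_inv₀, map_sub, map_mul, map_inv₀, map_inv₀, r1, r2, map_ofNat]
  rw [p1, p0, map_inv₀, map_sub, map_mul, map_inv₀, map_inv₀, r1, r2, map_ofNat] at *
  have hq := quartic D.t D.ht x (D.s x) (D.s (D.s x)) W0 W1 W2 rfl rfl rfl
  have e1 : ((2 * W0⁻¹ - W1⁻¹)⁻¹ + (2 * W1⁻¹ - W2⁻¹)⁻¹ + (2 * W2⁻¹ - W0⁻¹)⁻¹)
      * ((2 * W0⁻¹ - W1⁻¹) * (2 * W1⁻¹ - W2⁻¹) * (2 * W2⁻¹ - W0⁻¹)) * (W0 * W1 * W2) ^ 2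
      = 4802 * Qr D.s x := by
    rw [Qr, ← hq]
    have e2 : ((2 * W0⁻¹ - W1⁻¹)⁻¹ + (2 * W1⁻¹ - W2⁻¹)⁻¹ + (2 * W2⁻¹ - W0⁻¹)⁻¹)
      * ((2 * W0⁻¹ - W1⁻¹) * (2 * W1⁻¹ - W2⁻¹) * (2 * W2⁻¹ - W0⁻¹))
      = (2 * W1⁻¹ - W2⁻¹) * (2 * W2⁻¹ - W0⁻¹) + (2 * W0⁻¹ - W1⁻¹) * (2 * W2⁻¹ - W0⁻¹)
        + (2 * W0⁻¹ - W1⁻¹) * (2 * W1⁻¹ - W2⁻¹) := by
      generalize 2 * W0⁻¹ - W1⁻¹ = a at *
      generalize 2 * W1⁻¹ - W2⁻¹ = b at *
      generalize 2 * W2⁻¹ - W0⁻¹ = c at *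
      field_simp
    rw [e2]
    field_simp
    ring
  have h4802 : (4802 : L) ≠ 0 := by
    have : (4802 : L) = 2 * 7 * 7 * 7 * 7 := by norm_num
    rw [this]
    exact mul_ne_zero (mul_ne_zero (mul_ne_zero (mul_ne_zero D.n2 D.n7) D.n7) D.n7) D.n7
  have hP : (2 * W0⁻¹ - W1⁻¹) * (2 * W1⁻¹ - W2⁻¹) * (2 * W2⁻¹ - W0⁻¹) ≠ 0 :=
    mul_ne_zero (mul_ne_zero hz0 hz1) hz2
  have hW : (W0 * W1 * W2) ^ 2 ≠ 0 := pow_ne_zero _ (mul_ne_zero (mul_ne_zero n0 n1) n2)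
  constructor
  · intro h
    rw [h, zero_mul, zero_mul] at e1
    rcases mul_eq_zero.1 e1.symm with h' | h'
    · exact absurd h' h4802
    · exact h'
  · intro h
    rw [h, mul_zero] at e1
    rcases mul_eq_zero.1 e1 with h' | h'
    · rcases mul_eq_zero.1 h' with h'' | h''
      · exact h''
      · exact absurd h'' hP
    · exact absurd h' hW

end Pool.Agent.Lib.HQ
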