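import Mathlib

set_option autoImplicit false

namespace Pool.Agent.Lib.HQ

open Finset Polynomial

theorem mem_range {L A : Type} [Field L] [Fintype L] [Field A] [Algebra L A] (x : A)
    (hx : x ^ Fintype.card L = x) : ∃ y : L, algebraMap L A y = x := by
  classical
  by_contra hcon
  have hf : (X ^ Fintype.card L - X : A[X]) ≠ 0 :=
    FiniteField.X_pow_card_sub_X_ne_zero A Fintype.one_lt_card
  have hsub : insert x (univ.image (algebraMap L A))
      ⊆ (X ^ Fintype.card L - X : A[X]).roots.toFinset := by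
    intro y hy
    rw [Multiset.mem_toFinset, mem_roots hf, IsRoot.def, eval_sub, eval_pow, eval_X, sub_eq_zero]
    rcases Finset.mem_insert.1 hy with rfl | hy
    · exact hx
    · obtain ⟨z, _, rfl⟩ := Finset.mem_image.1 hy
      rw [← map_pow, FiniteField.pow_card]
  have h1 := Finset.card_le_card hsub
  rw [Finset.card_insert_of_notMem (fun h => hcon (by
    obtain ⟨z, _, hz⟩ := Finset.mem_image.1 h
    exact ⟨z, hz⟩)), Finset.card_image_of_injective _ (algebraMap L A).injective,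
    Finset.card_univ] at h1
  have h2 := Multiset.toFinset_card_le (X ^ Fintype.card L - X : A[X]).roots
  have h3 := card_roots' (X ^ Fintype.card L - X : A[X])
  rw [FiniteField.X_pow_card_sub_X_natDegree_eq A Fintype.one_lt_card] at h3
  omega

theorem zeta_root {A : Type} [Field A] (z : A) (hz : 1 + z + z ^ 2 + z ^ 3 + z ^ 4 + z ^ 5 + z ^ 6 = 0)
    (h7 : z ^ 7 = 1) : (z + z ^ 6) ^ 3 + (z + z ^ 6) ^ 2 - 2 * (z + z ^ 6) - 1 = 0 := by
  linear_combination hz + (z ^ 4 * (z ^ 7 + 1) + 3 * z ^ 6 + 3 * z + z ^ 5 + 2) * h7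

theorem theta_pow {A : Type} [Field A] (p : ℕ) [Fact p.Prime] [CharP A p] (z : A)
    (h7 : z ^ 7 = 1) (j : ℕ) :
    (z + z ^ 6) ^ p ^ j = z ^ (p ^ j % 7) + (z ^ (p ^ j % 7)) ^ 6 := by
  rw [add_pow_char_pow, ← pow_eq_pow_mod _ h7, ← pow_mul, ← pow_mul, mul_comm 6]

theorem theta_pow_one {A : Type} [Field A] (p : ℕ) [Fact p.Prime] [CharP A p] (z : A)
    (h7 : z ^ 7 = 1) (j : ℕ) (h : p ^ j % 7 = 1 ∨ p ^ j % 7 = 6) :
    (z + z ^ 6) ^ p ^ j = z + z ^ 6 := by
  rw [theta_pow p z h7]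
  rcases h with h | h <;> rw [h]
  · rw [pow_one]
  · have : (z ^ 6) ^ 6 = z := by
      rw [← pow_mul, pow_eq_pow_mod _ h7]; norm_num
    rw [this, add_comm]

theorem theta_pow_three {A : Type} [Field A] (p : ℕ) [Fact p.Prime] [CharP A p] (z : A)
    (hz : 1 + z + z ^ 2 + z ^ 3 + z ^ 4 + z ^ 5 + z ^ 6 = 0)
    (h7 : z ^ 7 = 1) (j : ℕ) (h : p ^ j % 7 = 3 ∨ p ^ j % 7 = 4) :
    (z + z ^ 6) ^ p ^ j = 1 - (z + z ^ 6) - (z + z ^ 6) ^ 2 := by
  rw [theta_pow p z h7]
  rcases h with h | h <;> rw [h]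
  · linear_combination hz + (z ^ 4 * (z ^ 7 + 1) + 2 + z ^ 5) * h7
  · linear_combination hz + (z ^ 3 * (z ^ 14 + z ^ 7 + 1) + 2 + z ^ 5) * h7

/-- Existence of the root of the cubic in a finite field of cube order. -/
theorem exists_root (p : ℕ) [Fact p.Prime] (hp7 : p ≠ 7) (L : Type) [Field L] [Fintype L]
    [CharP L p] (m : ℕ) (hL : Fintype.card L = p ^ (3 * m)) :
    ∃ t : L, t ^ 3 + t ^ 2 - 2 * t - 1 = 0 ∧
      (∀ j, (p ^ j % 7 = 1 ∨ p ^ j % 7 = 6) → t ^ p ^ j = t) ∧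
      (∀ j, (p ^ j % 7 = 3 ∨ p ^ j % 7 = 4) → t ^ p ^ j = 1 - t - t ^ 2) := by
  have h7p : Fact (Nat.Prime 7) := ⟨by norm_num⟩
  have hcA : CharP (AlgebraicClosure L) p :=
    charP_of_injective_algebraMap (algebraMap L (AlgebraicClosure L)).injective p
  obtain ⟨z, hz0⟩ := IsAlgClosed.exists_root (cyclotomic 7 (AlgebraicClosure L))
    (degree_cyclotomic_pos 7 _ (by norm_num)).ne'
  rw [IsRoot.def, cyclotomic_prime, eval_geom_sum] at hz0
  have hz : 1 + z + z ^ 2 + z ^ 3 + z ^ 4 + z ^ 5 + z ^ 6 = 0 := by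
    rw [← hz0]
    simp only [Finset.sum_range_succ, Finset.sum_range_zero]
    ring
  have h7 : z ^ 7 = 1 := by linear_combination (z - 1) * hz
  have hp : p % 7 ≠ 0 := by
    intro h
    have := (Nat.prime_dvd_prime_iff_eq h7p.out (Fact.out : p.Prime)).1 (Nat.dvd_of_mod_eq_zero h)
    exact hp7 this.symm
  have hq : p ^ (3 * m) % 7 = 1 ∨ p ^ (3 * m) % 7 = 6 := by
    have h1 : (p ^ m) % 7 ≠ 0 := by
      intro h
      exact hp (Nat.mod_eq_zero_of_dvd (h7p.out.dvd_of_dvd_pow (Nat.dvd_of_mod_eq_zero h)))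
    have h2 : p ^ (3 * m) = (p ^ m) ^ 3 := by rw [mul_comm, pow_mul]
    rw [h2, Nat.pow_mod]
    have h3 : p ^ m % 7 < 7 := Nat.mod_lt _ (by norm_num)
    interval_cases h : p ^ m % 7 <;> simp_all
  have hfix : (z + z ^ 6) ^ Fintype.card L = z + z ^ 6 := by
    rw [hL]; exact theta_pow_one p z h7 _ hq
  obtain ⟨t, ht⟩ := mem_range (L := L) (z + z ^ 6) hfix
  have hinj := (algebraMap L (AlgebraicClosure L)).injective
  refine ⟨t, ?_, fun j hj => ?_, fun j hj => ?_⟩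
  · apply hinj
    rw [map_zero, map_sub, map_sub, map_add, map_mul, map_pow, map_pow, map_one, map_ofNat, ht]
    exact zeta_root z hz h7
  · apply hinj
    rw [map_pow, ht]
    exact theta_pow_one p z h7 j hj
  · apply hinj
    rw [map_pow, map_sub, map_sub, map_pow, map_one, ht]
    exact theta_pow_three p z hz h7 j hj

end Pool.Agent.Lib.HQ
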