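import Mathlib

set_option autoImplicit false

namespace Pool.Agent.Lib.HQ

open Finset

/-- The additive character of a finite field given by the trace. -/
noncomputable def psi (p : ℕ) [Fact p.Prime] (L : Type) [Field L] [Algebra (ZMod p) L] :
    AddChar L ℂ :=
  (ZMod.stdAddChar (N := p)).compAddMonoidHom (Algebra.trace (ZMod p) L).toAddMonoidHom

theorem psi_apply (p : ℕ) [Fact p.Prime] (L : Type) [Field L] [Algebra (ZMod p) L] (x : L) :
    psi p L x = Complex.exp (2 * Real.pi * Complex.I *
      ((Algebra.trace (ZMod p) L x).val : ℂ) / (p : ℂ)) := by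
  have h : psi p L x = ZMod.stdAddChar (N := p) (Algebra.trace (ZMod p) L x) := rfl
  rw [h, ZMod.stdAddChar_apply, ZMod.toCircle_apply]

variable (p : ℕ) [Fact p.Prime] (K L : Type) [Field K] [Fintype K] [DecidableEq K]
  [Field L] [Fintype L] [Algebra (ZMod p) K] [Algebra (ZMod p) L] [Algebra K L]
  [IsScalarTower (ZMod p) K L]

theorem psi_ne_one (F : Type) [Field F] [Finite F] [Algebra (ZMod p) F] : psi p F ≠ 1 := by
  intro h
  obtain ⟨x, hx⟩ := Algebra.trace_surjective (ZMod p) F 1
  have h1 : psi p F x = 1 := by rw [h]; rfl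
  have h2 : psi p F x = ZMod.stdAddChar (N := p) (1 : ZMod p) := by
    have : psi p F x = ZMod.stdAddChar (N := p) (Algebra.trace (ZMod p) F x) := rfl
    rw [this, hx]
  have h3 : ZMod.stdAddChar (N := p) (1 : ZMod p) = ZMod.stdAddChar (N := p) (0 : ZMod p) := by
    rw [← h2, h1, AddChar.map_zero_eq_one]
  exact one_ne_zero (ZMod.injective_stdAddChar h3)

theorem psi_tower (x : L) : psi p L x = psi p K (Algebra.trace K L x) := by
  have h1 : psi p L x = ZMod.stdAddChar (N := p) (Algebra.trace (ZMod p) L x) := rfl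
  have h2 : psi p K (Algebra.trace K L x)
      = ZMod.stdAddChar (N := p) (Algebra.trace (ZMod p) K (Algebra.trace K L x)) := rfl
  rw [h1, h2, Algebra.trace_trace]

theorem sum_k (z : L) :
    ∑ k : K, psi p L (algebraMap K L k * z)
      = if Algebra.trace K L z = 0 then (Fintype.card K : ℂ) else 0 := by
  have h : ∀ k : K, psi p L (algebraMap K L k * z) = psi p K (k * Algebra.trace K L z) := by
    intro k
    rw [psi_tower p K L, ← Algebra.smul_def, map_smul, smul_eq_mul]
  rw [Finset.sum_congr rfl (fun k _ => h k),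
    AddChar.sum_mulShift _ (AddChar.IsPrimitive.of_ne_one (psi_ne_one p K))]
  split_ifs <;> simp

/-- Sums of a homogeneous function over `L`. -/
theorem avg (G : L → L) (hG : ∀ k : K, ∀ x, G (algebraMap K L k * x) = algebraMap K L k * G x) :
    ((Fintype.card K : ℂ) - 1) * ∑ x : L, psi p L (G x)
      = (Fintype.card K : ℂ) * ((univ.filter (fun x : L => Algebra.trace K L (G x) = 0)).card : ℂ)
        - (Fintype.card L : ℂ) := by
  have h1 : ∑ k : K, ∑ x : L, psi p L (algebraMap K L k * G x)
      = (Fintype.card K : ℂ)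
        * ((univ.filter (fun x : L => Algebra.trace K L (G x) = 0)).card : ℂ) := by
    rw [Finset.sum_comm]
    simp_rw [sum_k p K L]
    rw [← Finset.sum_filter, Finset.sum_const, nsmul_eq_mul, mul_comm]
  have h2 : ∀ k : K, k ≠ 0 → ∑ x : L, psi p L (algebraMap K L k * G x)
      = ∑ x : L, psi p L (G x) := by
    intro k hk
    have hk' : algebraMap K L k ≠ 0 := (map_ne_zero _).2 hk
    simp_rw [← hG]
    exact Fintype.sum_bijective (fun x => algebraMap K L k * x)
      (mulLeft_bijective₀ _ hk') _ _ (fun x => rfl)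
  rw [← Finset.add_sum_erase _ _ (mem_univ (0 : K)),
    Finset.sum_congr rfl (fun k hk => h2 k (Finset.ne_of_mem_erase hk)), Finset.sum_const,
    Finset.card_erase_of_mem (mem_univ _), Finset.card_univ, nsmul_eq_mul] at h1
  have h3 : ∑ x : L, psi p L (algebraMap K L 0 * G x) = (Fintype.card L : ℂ) := by
    simp
  rw [h3, Nat.cast_sub Fintype.card_pos, Nat.cast_one] at h1
  linear_combination h1

/-- Two homogeneous functions with the same number of zeros of the trace. -/
theorem sum_eq_zero (G : L → L)
    (hG : ∀ k : K, ∀ x, G (algebraMap K L k * x) = algebraMap K L k * G x)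
    (hcard : (univ.filter (fun x : L => Algebra.trace K L (G x) = 0)).card
      = (univ.filter (fun x : L => Algebra.trace K L x = 0)).card) :
    ∑ x : L, psi p L (G x) = 0 := by
  have h1 := avg p K L G hG
  have h2 := avg p K L id (fun k x => rfl)
  have h3 : ∑ x : L, psi p L (id x) = 0 := AddChar.sum_eq_zero_of_ne_one (psi_ne_one p L)
  simp only [id] at h2 h3
  rw [h3, mul_zero] at h2
  rw [hcard, ← h2] at h1
  have h4 : (Fintype.card K : ℂ) - 1 ≠ 0 := by
    have := Fintype.one_lt_card (α := K)
    rw [sub_ne_zero]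
    exact_mod_cast this.ne'
  exact (mul_eq_zero.1 h1).resolve_left h4

end Pool.Agent.Lib.HQ
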