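import Pool.Agent.Lib.HQ.Alg
import Pool.Agent.Lib.HQ.Sum
import Pool.Agent.Lib.HQ.Root

set_option autoImplicit false

namespace Pool.Agent.Lib.HQ

open Finset

/-- The data attached to a root fixed by the Frobenius map. -/
def dataA {L : Type} [Field L] (s : L →+* L) (t : L) (ht : t ^ 3 + t ^ 2 - 2 * t - 1 = 0)
    (s3 : ∀ x, s (s (s x)) = x) (hs : s t = t) (n2 : (2 : L) ≠ 0) (n7 : (7 : L) ≠ 0) : Data L where
  s := s
  r := s.comp s
  t := t
  ht := ht
  r3 := fun x => by simp only [RingHom.comp_apply, s3]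
  h1 := fun x => by
    simp only [RingHom.comp_apply, F0, F1, w0, w1, w2, map_add, map_sub, map_mul, map_pow,
      map_ofNat, map_one, hs, s3]
    ring
  h2 := fun x => by
    simp only [RingHom.comp_apply, F1, F2, w0, w1, w2, map_add, map_sub, map_mul, map_pow,
      map_ofNat, map_one, hs, s3]
    ring
  n2 := n2
  n7 := n7

/-- The data attached to a root moved by the Frobenius map. -/
def dataB {L : Type} [Field L] (s : L →+* L) (t : L) (ht : t ^ 3 + t ^ 2 - 2 * t - 1 = 0)
    (s3 : ∀ x, s (s (s x)) = x) (hs : s t = 1 - t - t ^ 2) (n2 : (2 : L) ≠ 0)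
    (n7 : (7 : L) ≠ 0) : Data L where
  s := s
  r := s
  t := t
  ht := ht
  r3 := s3
  h1 := fun x => by
    simp only [F0, F1, w0, w1, w2, map_add, map_sub, map_mul, map_pow,
      map_ofNat, map_one, hs, s3]
    linear_combination ((s x + 2 * s (s x) - 3 * x) * (t + 1)) * ht
  h2 := fun x => by
    simp only [F1, F2, w0, w1, w2, map_add, map_sub, map_mul, map_pow,
      map_ofNat, map_one, hs, s3]
    linear_combination ((2 * s x - 3 * s (s x) + x) * (t + 1)) * ht
  n2 := n2
  n7 := n7

/-- The trace in terms of a map of order three. -/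
theorem card_eq {L : Type} [Field L] [Fintype L] [DecidableEq L] (D : Data L) (tr : L → Prop)
    [DecidablePred tr] (G : L → L)
    (h1 : ∀ x, tr x ↔ x + D.r x + D.r (D.r x) = 0)
    (h2 : ∀ x, tr (G x) ↔ Qr D.s x = 0) :
    (univ.filter (fun x : L => tr (G x))).card = (univ.filter (fun x : L => tr x)).card := by
  have hb : Function.Bijective (Phi D.s D.r D.t) := Finite.injective_iff_bijective.1 (Phi_inj D)
  refine Finset.card_bij (fun x _ => Phi D.s D.r D.t x) ?_ ?_ ?_
  · intro x hx
    rw [Finset.mem_filter] at hx ⊢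
    exact ⟨mem_univ _, (h1 _).2 ((trace_iff D x).2 ((h2 x).1 hx.2))⟩
  · intro a _ b _ h
    exact hb.1 h
  · intro y hy
    obtain ⟨x, rfl⟩ := hb.2 y
    rw [Finset.mem_filter] at hy
    refine ⟨x, ?_, rfl⟩
    rw [Finset.mem_filter]
    exact ⟨mem_univ _, (h2 x).2 ((trace_iff D x).1 ((h1 _).1 hy.2))⟩

theorem trace_G {L : Type} [Field L] (s : L →+* L) (s3 : ∀ x, s (s (s x)) = x) (k : ℕ)
    (hk : 0 < k) (hsk : ∀ x : L, x ^ k * x = (s x) ^ 2) (x : L) :
    (x ^ k - (-7) * x) + s (x ^ k - (-7) * x) + s (s (x ^ k - (-7) * x)) = 0 ↔ Qr s x = 0 := by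
  by_cases hx : x = 0
  · subst hx
    have : (0 : L) ^ k = 0 := zero_pow hk.ne'
    simp [Qr, this]
  have n1 : s x ≠ 0 := (map_ne_zero s).2 hx
  have n2 : s (s x) ≠ 0 := (map_ne_zero s).2 n1
  have e0 := hsk x
  have e1 := hsk (s x)
  have e2 := hsk (s (s x))
  rw [s3] at e2
  have key : ((x ^ k - (-7) * x) + s (x ^ k - (-7) * x) + s (s (x ^ k - (-7) * x)))
      * (x * s x * s (s x)) = Qr s x := by
    simp only [map_sub, map_mul, map_neg, map_pow, map_ofNat]
    rw [Qr]
    linear_combination (s x * s (s x)) * e0 + (x * s (s x)) * e1 + (x * s x) * e2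
  have hP : x * s x * s (s x) ≠ 0 := mul_ne_zero (mul_ne_zero hx n1) n2
  constructor
  · intro h
    rw [← key, h, zero_mul]
  · intro h
    rw [← key] at h
    exact (mul_eq_zero.1 h).resolve_right hP

/-- The sum vanishes: `e` is `m` or `2 * m`. -/
theorem main (p : ℕ) [Fact p.Prime] (hp2 : p ≠ 2) (hp7 : p ≠ 7) (m : ℕ) (hm : 1 ≤ m) (L : Type)
    [Field L] [Fintype L] [CharP L p] [Algebra (ZMod p) L] (hL : Fintype.card L = p ^ (3 * m))
    (e : ℕ) (he : e = m ∨ e = 2 * m)
    (h7 : p ^ e % 7 = 1 ∨ p ^ e % 7 = 6 ∨ p ^ e % 7 = 3 ∨ p ^ e % 7 = 4) (k : ℕ)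
    (hk : k + 1 = 2 * p ^ e) :
    ∑ x : L, psi p L (x ^ k - (-7) * x) = 0 := by
  classical
  have hpp : p.Prime := Fact.out
  -- the subfield
  have hfin : Module.finrank (ZMod p) (GaloisField p m) = m := GaloisField.finrank p (by omega)
  have hfinL : Module.finrank (ZMod p) L = 3 * m := by
    have := FiniteField.pow_finrank_eq_card p L
    rw [hL] at this
    exact Nat.pow_right_injective hpp.two_le this
  obtain ⟨f⟩ := FiniteField.nonempty_algHom_of_finrank_dvd (F := ZMod p) (K := GaloisField p m)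
    (L := L) (by rw [hfin, hfinL]; exact Dvd.intro_left 3 rfl)
  let _ : Algebra (GaloisField p m) L := f.toRingHom.toAlgebra
  have hst : IsScalarTower (ZMod p) (GaloisField p m) L :=
    IsScalarTower.of_algebraMap_eq (fun x => (f.commutes x).symm)
  have hfinKL : Module.finrank (GaloisField p m) L = 3 := by
    have h := Module.finrank_mul_finrank (ZMod p) (GaloisField p m) L
    rw [hfin, hfinL] at h
    have : m * Module.finrank (GaloisField p m) L = m * 3 := by rw [h]; ring
    exact Nat.eq_of_mul_eq_mul_left (by omega) this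
  have hft : Fintype (GaloisField p m) := Fintype.ofFinite _
  have hKc : Nat.card (GaloisField p m) = p ^ m := GaloisField.card p m (by omega)
  have htrace : ∀ x : L, Algebra.trace (GaloisField p m) L x = 0 ↔
      x + x ^ p ^ m + x ^ p ^ (2 * m) = 0 := by
    intro x
    have h := FiniteField.algebraMap_trace_eq_sum_pow (GaloisField p m) L x
    rw [hfinKL, hKc] at h
    simp only [Finset.sum_range_succ, Finset.sum_range_zero] at h
    rw [pow_zero, pow_one, pow_one, zero_add, ← pow_mul, mul_comm m 2] at h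
    rw [← h]
    exact (map_eq_zero (algebraMap (GaloisField p m) L)).symm
  -- the Frobenius map
  have hq : ∀ (x : L) (j : ℕ), x ^ p ^ (3 * m * j) = x := by
    intro x j
    rw [pow_mul, ← hL]
    exact FiniteField.pow_card_pow j x
  set s : L →+* L := iterateFrobenius L p e with hs
  have sap : ∀ x, s x = x ^ p ^ e := fun x => iterateFrobenius_def _ _ _
  have s3 : ∀ x, s (s (s x)) = x := by
    intro x
    rw [sap, sap, sap, ← pow_mul, ← pow_mul, ← pow_add, ← pow_add]
    rcases he with rfl | rfl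
    · have := hq x 1
      rwa [show 3 * e * 1 = e + (e + e) by ring] at this
    · have := hq x 2
      rwa [show 3 * m * 2 = 2 * m + (2 * m + 2 * m) by ring] at this
  have ss : ∀ x, s (s x) = x ^ p ^ (2 * e) := by
    intro x
    rw [sap, sap, ← pow_mul, ← pow_add, two_mul]
  have trs : ∀ x : L, Algebra.trace (GaloisField p m) L x = 0 ↔ x + s x + s (s x) = 0 := by
    intro x
    rw [htrace, ss, sap]
    rcases he with rfl | rfl
    · exact Iff.rfl
    · have : x ^ p ^ (2 * (2 * m)) = x ^ p ^ m := by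
        have h4 : 2 * (2 * m) = 3 * m * 1 + m := by ring
        rw [h4, pow_add, pow_mul, hq]
      rw [this, add_right_comm]
  have n2 : (2 : L) ≠ 0 := by
    have : ((2 : ℕ) : L) ≠ 0 := by
      rw [Ne, CharP.cast_eq_zero_iff L p]
      intro h
      exact hp2 ((Nat.prime_dvd_prime_iff_eq hpp Nat.prime_two).1 h)
    exact_mod_cast this
  have n7 : (7 : L) ≠ 0 := by
    have : ((7 : ℕ) : L) ≠ 0 := by
      rw [Ne, CharP.cast_eq_zero_iff L p]
      intro h
      exact hp7 ((Nat.prime_dvd_prime_iff_eq hpp (by norm_num)).1 h)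
    exact_mod_cast this
  have hsk : ∀ x : L, x ^ k * x = (s x) ^ 2 := by
    intro x
    rw [sap, ← pow_succ, hk, ← pow_mul, mul_comm]
  have hkpos : 0 < k := by
    have : 1 ≤ p ^ e := Nat.one_le_pow _ _ hpp.pos
    omega
  obtain ⟨t, ht, ht1, ht3⟩ := exists_root p hp7 L m hL
  -- the main data
  obtain ⟨D, hDs, hDr⟩ : ∃ D : Data L, D.s = s ∧
      (∀ x, x + D.r x + D.r (D.r x) = x + s x + s (s x)) := by
    by_cases hc : p ^ e % 7 = 1 ∨ p ^ e % 7 = 6
    · refine ⟨dataA s t ht s3 (by rw [sap]; exact ht1 e hc) n2 n7, rfl, fun x => ?_⟩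
      simp only [dataA, RingHom.comp_apply, s3]
      ring
    · refine ⟨dataB s t ht s3 (by rw [sap]; exact ht3 e (by tauto)) n2 n7, rfl, fun x => rfl⟩
  refine sum_eq_zero p (GaloisField p m) L _ ?_ ?_
  · intro c x
    have hc : (algebraMap (GaloisField p m) L c) ^ k = algebraMap (GaloisField p m) L c := by
      rw [← map_pow]
      congr 1
      by_cases h0 : c = 0
      · rw [h0, zero_pow hkpos.ne']
      apply mul_right_cancel₀ h0
      rw [← pow_succ, hk]
      have hc1 : c ^ p ^ m = c := by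
        have := FiniteField.pow_card c
        rwa [Fintype.card_eq_nat_card, hKc] at this
      have hc2 : c ^ p ^ e = c := by
        rcases he with rfl | rfl
        · exact hc1
        · rw [two_mul, pow_add, pow_mul, hc1, hc1]
      rw [mul_comm, pow_mul, hc2, sq]
    rw [mul_pow, hc]
    ring
  · refine card_eq D (fun x => Algebra.trace (GaloisField p m) L x = 0) _ ?_ ?_
    · intro x
      rw [trs, hDr]
    · intro x
      rw [trs, hDs]
      exact trace_G s s3 k hkpos hsk x

end Pool.Agent.Lib.HQ
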